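import Mathlib
import Pool.Agent.Lib.MP_aae597_nt.Orbit
import Pool.Agent.Lib.MP_aae597_nt.Oscil

/-!
# The Landau-type series for a single system

`S_N(f, x) = ∑_{n = 1}^N μ(n)/n * f (T^n x)`. For every continuous self-map of a compact metric
space (no hypothesis on the entropy) the Landau-type statement (L) holds for the system exactly if
all forward orbits are finite; along an infinite forward orbit the sums of a generic continuous
function are larger than any given `o(log N)` infinitely often, and (S) only gives `o(log N)`.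
-/

set_option autoImplicit false

open Filter Topology

namespace Pool.Agent.Results.MP_aae597_nt.EverySystem

open Pool.Agent.Lib.MP_aae597_nt

/-- Kronecker's lemma. -/
lemma kronecker (a : ℕ → ℂ) (l : ℂ)
    (h : Tendsto (fun N : ℕ => ∑ n ∈ Finset.Icc 1 N, a n / n) atTop (𝓝 l)) :
    Tendsto (fun N : ℕ => (∑ n ∈ Finset.Icc 1 N, a n) / (N : ℂ)) atTop (𝓝 0) := by
  set s : ℕ → ℂ := fun N => ∑ n ∈ Finset.Icc 1 N, a n / n with hs
  have h1 : ∀ N : ℕ, ∑ n ∈ Finset.Icc 1 N, a n = N * s N - ∑ i ∈ Finset.range N, s i := by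
    intro N
    induction N with
    | zero => simp
    | succ N ih =>
      have h2 : s (N + 1) = s N + a (N + 1) / ((N + 1 : ℕ) : ℂ) := by
        simp only [hs]
        rw [Finset.sum_Icc_succ_top (by omega)]
      have h3 : ((N : ℂ) + 1) ≠ 0 := by exact_mod_cast Nat.succ_ne_zero N
      rw [Finset.sum_Icc_succ_top (by omega), ih, Finset.sum_range_succ, h2]
      push_cast
      field_simp
      ring
  have h4 := h.sub h.cesaro_smul
  rw [sub_self] at h4
  refine h4.congr' ?_
  filter_upwards [eventually_ge_atTop 1] with N hN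
  have h5 : (N : ℂ) ≠ 0 := by exact_mod_cast (by omega : N ≠ 0)
  rw [h1 N, Complex.real_smul]
  push_cast
  field_simp

lemma sum_atTop : Tendsto (fun N : ℕ => ∑ n ∈ Finset.Icc 1 N,
    ‖((ArithmeticFunction.moebius n : ℤ) : ℂ) / (n : ℂ)‖) atTop atTop := by
  have hlog : Tendsto (fun N : ℕ => Real.log N / 2) atTop atTop :=
    (Real.tendsto_log_atTop.comp tendsto_natCast_atTop_atTop).atTop_div_const two_pos
  refine tendsto_atTop_mono (fun N => ?_) hlog
  have := Orb.log_bound N
  linarith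

/-- generic divergence faster than `h = o(A)` -/
lemma gen {X : Type} [MetricSpace X] [CompactSpace X] (a : ℕ → ℂ) (x : ℕ → X)
    (hx : Function.Injective x)
    (hA : Tendsto (fun N => ∑ n ∈ Finset.Icc 1 N, ‖a n‖) atTop atTop) (h : ℕ → ℝ)
    (hh : h =o[atTop] fun N => ∑ n ∈ Finset.Icc 1 N, ‖a n‖) :
    ∀ᶠ f in residual C(X, ℂ), ∀ K : ℝ, ∃ᶠ N : ℕ in atTop, K * h N <
      ‖∑ n ∈ Finset.Icc 1 N, a n * f (x n)‖ := by
  have h1 : (fun N => |h N| + 1) =o[atTop] fun N => ∑ n ∈ Finset.Icc 1 N, ‖a n‖ := by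
    refine Asymptotics.IsLittleO.add hh.abs_left ?_
    rw [Asymptotics.isLittleO_const_left]
    right
    exact tendsto_norm_atTop_atTop.comp hA
  filter_upwards [Generic.generic a x hx (fun N => |h N| + 1) h1
    (fun N => by positivity)] with f hf K
  refine (hf |K|).mono fun N hN => lt_of_le_of_lt ?_ hN
  calc K * h N ≤ |K * h N| := le_abs_self _
    _ = |K| * |h N| := abs_mul _ _
    _ ≤ |K| * (|h N| + 1) := mul_le_mul_of_nonneg_left (by linarith) (abs_nonneg _)

/-- **The Landau-type series for a single system.** -/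
theorem result (X : Type) [MetricSpace X] [CompactSpace X] (T : X → X) (hT : Continuous T) :
    -- (1) the statement (L) holds for the system iff all forward orbits are finite
    ((∀ f : X → ℂ, Continuous f → ∀ x : X, ∃ l : ℂ, Tendsto (fun N : ℕ =>
        ∑ n ∈ Finset.Icc 1 N, ((ArithmeticFunction.moebius n : ℤ) : ℂ) / (n : ℂ) * f (T^[n] x))
        atTop (𝓝 l)) ↔
      ∀ x : X, (Set.range fun n : ℕ => T^[n] x).Finite) ∧
    -- (2) (S) and (L) are equivalent for the system iff (S) fails or all forward orbits are finite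
    (((∀ f : X → ℂ, Continuous f → ∀ x : X, Tendsto (fun N : ℕ =>
          (∑ n ∈ Finset.Icc 1 N, ((ArithmeticFunction.moebius n : ℤ) : ℂ) * f (T^[n] x)) / (N : ℂ))
          atTop (𝓝 0)) ↔
        (∀ f : X → ℂ, Continuous f → ∀ x : X, ∃ l : ℂ, Tendsto (fun N : ℕ =>
          ∑ n ∈ Finset.Icc 1 N, ((ArithmeticFunction.moebius n : ℤ) : ℂ) / (n : ℂ) * f (T^[n] x))
          atTop (𝓝 l))) ↔
      (¬ (∀ f : X → ℂ, Continuous f → ∀ x : X, Tendsto (fun N : ℕ =>
          (∑ n ∈ Finset.Icc 1 N, ((ArithmeticFunction.moebius n : ℤ) : ℂ) * f (T^[n] x)) / (N : ℂ))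
          atTop (𝓝 0)) ∨
        ∀ x : X, (Set.range fun n : ℕ => T^[n] x).Finite)) ∧
    -- (3) along an infinite forward orbit, a generic `f` is larger than any given `o(log N)`
    (∀ x : X, (Set.range fun n : ℕ => T^[n] x).Infinite →
      ∀ h : ℕ → ℝ, h =o[atTop] (fun N : ℕ => Real.log N) →
      ∀ᶠ f in residual C(X, ℂ), ∀ K : ℝ, ∃ᶠ N : ℕ in atTop, K * h N <
        ‖∑ n ∈ Finset.Icc 1 N, ((ArithmeticFunction.moebius n : ℤ) : ℂ) / (n : ℂ) *
          f (T^[n] x)‖) ∧
    -- (4) if the points with an infinite forward orbit are dense: generic `f` and generic `x`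
    (Dense {x : X | (Set.range fun n : ℕ => T^[n] x).Infinite} →
      ∀ h : ℕ → ℝ, h =o[atTop] (fun N : ℕ => Real.log N) →
      ∀ᶠ f in residual C(X, ℂ), ∀ᶠ x in residual X, ∀ K : ℝ, ∃ᶠ N : ℕ in atTop, K * h N <
        ‖∑ n ∈ Finset.Icc 1 N, ((ArithmeticFunction.moebius n : ℤ) : ℂ) / (n : ℂ) *
          f (T^[n] x)‖) ∧
    -- (5) the statement (S) gives `o(log N)`
    (∀ (f : X → ℂ) (x : X), Tendsto (fun N : ℕ =>
        (∑ n ∈ Finset.Icc 1 N, ((ArithmeticFunction.moebius n : ℤ) : ℂ) * f (T^[n] x)) / (N : ℂ))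
        atTop (𝓝 0) →
      (fun N : ℕ => ∑ n ∈ Finset.Icc 1 N,
        ((ArithmeticFunction.moebius n : ℤ) : ℂ) / (n : ℂ) * f (T^[n] x)) =o[atTop]
        fun N : ℕ => Real.log N) ∧
    -- (6) if (S) holds at `x`, with infinite forward orbit, the sums of a generic `f` have every
    -- complex number as a cluster point
    (∀ x : X, (Set.range fun n : ℕ => T^[n] x).Infinite →
      (∀ f : X → ℂ, Continuous f → Tendsto (fun N : ℕ =>
        (∑ n ∈ Finset.Icc 1 N, ((ArithmeticFunction.moebius n : ℤ) : ℂ) * f (T^[n] x)) / (N : ℂ))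
        atTop (𝓝 0)) →
      ∀ᶠ f in residual C(X, ℂ), ∀ z : ℂ, MapClusterPt z atTop (fun N : ℕ =>
        ∑ n ∈ Finset.Icc 1 N, ((ArithmeticFunction.moebius n : ℤ) : ℂ) / (n : ℂ) *
          f (T^[n] x))) ∧
    -- (7) other weights: only absolutely convergent series converge for all `f`
    (∀ x : X, (Set.range fun n : ℕ => T^[n] x).Infinite → ∀ w : ℕ → ℂ,
      ((∀ f : X → ℂ, Continuous f → ∃ l : ℂ, Tendsto (fun N : ℕ =>
        ∑ n ∈ Finset.Icc 1 N, ((ArithmeticFunction.moebius n : ℤ) : ℂ) * w n * f (T^[n] x))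
        atTop (𝓝 l)) ↔
      Summable fun n : ℕ => ‖((ArithmeticFunction.moebius n : ℤ) : ℂ) * w n‖)) := by
  -- (7)
  have h7 : ∀ x : X, (Set.range fun n : ℕ => T^[n] x).Infinite → ∀ a : ℕ → ℂ, a 0 = 0 →
      (∀ f : X → ℂ, Continuous f → ∃ l : ℂ, Tendsto (fun N : ℕ =>
        ∑ n ∈ Finset.Icc 1 N, a n * f (T^[n] x)) atTop (𝓝 l)) → Summable fun n => ‖a n‖ := by
    intro x hx a ha0 hconv
    have hinj := Generic.injective_of_infinite T x hx
    by_contra hns
    have hA : Tendsto (fun N => ∑ n ∈ Finset.Icc 1 N, ‖a n‖) atTop atTop := by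
      have h1 := (not_summable_iff_tendsto_nat_atTop_of_nonneg (fun n => norm_nonneg (a n))).1 hns
      have h2 := h1.comp (tendsto_add_atTop_nat 1)
      refine h2.congr fun N => ?_
      simp only [Function.comp]
      rw [Finset.sum_range_succ', ha0, norm_zero, add_zero, Finset.range_eq_Ico,
        Finset.sum_Ico_add' (fun n : ℕ => ‖a n‖) 0 N 1]
      refine Finset.sum_congr ?_ fun n _ => rfl
      ext n
      simp only [Finset.mem_Icc, Finset.mem_Ico]
      omega
    have hone : (fun _ : ℕ => (1 : ℝ)) =o[atTop] fun N => ∑ n ∈ Finset.Icc 1 N, ‖a n‖ := by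
      rw [Asymptotics.isLittleO_const_left]
      right
      exact tendsto_norm_atTop_atTop.comp hA
    have hgen := gen a (fun n => T^[n] x) hinj hA (fun _ => 1) hone
    obtain ⟨f, hf⟩ := (dense_of_mem_residual hgen).nonempty
    change ∀ K : ℝ, ∃ᶠ N : ℕ in atTop, K * 1 < _ at hf
    obtain ⟨l, hl⟩ := hconv f f.continuous
    have hb := hl.norm
    have h3 : ∀ᶠ N : ℕ in atTop, ‖∑ n ∈ Finset.Icc 1 N, a n * f (T^[n] x)‖ < ‖l‖ + 1 :=
      hb.eventually (gt_mem_nhds (by linarith))
    obtain ⟨N, hN1, hN2⟩ := ((hf (‖l‖ + 1)).and_eventually h3).exists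
    rw [mul_one] at hN1
    exact lt_asymm hN1 hN2
  -- (1)
  have h1 : (∀ f : X → ℂ, Continuous f → ∀ x : X, ∃ l : ℂ, Tendsto (fun N : ℕ =>
        ∑ n ∈ Finset.Icc 1 N, ((ArithmeticFunction.moebius n : ℤ) : ℂ) / (n : ℂ) * f (T^[n] x))
        atTop (𝓝 l)) ↔ ∀ x : X, (Set.range fun n : ℕ => T^[n] x).Finite := by
    constructor
    · intro hL x
      by_contra hx
      have hs := h7 x hx (fun n => ((ArithmeticFunction.moebius n : ℤ) : ℂ) / (n : ℂ)) (by simp)
        (fun f hf => hL f hf x)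
      -- the sums would be bounded
      have hb : ∀ N : ℕ, ∑ n ∈ Finset.Icc 1 N,
          ‖((ArithmeticFunction.moebius n : ℤ) : ℂ) / (n : ℂ)‖ ≤
          ∑' n : ℕ, ‖((ArithmeticFunction.moebius n : ℤ) : ℂ) / (n : ℂ)‖ :=
        fun N => hs.sum_le_tsum _ fun n _ => norm_nonneg _
      obtain ⟨N, hN⟩ := (sum_atTop.eventually_gt_atTop
        (∑' n : ℕ, ‖((ArithmeticFunction.moebius n : ℤ) : ℂ) / (n : ℂ)‖)).exists
      exact absurd (hb N) (not_le.2 hN)
    · intro hfin f _ x
      exact Orb.conv_of_finite T x (hfin x) f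
  refine ⟨h1, ?_, ?_, ?_, ?_, ?_, ?_⟩
  · -- (2)
    have hLS : (∀ f : X → ℂ, Continuous f → ∀ x : X, ∃ l : ℂ, Tendsto (fun N : ℕ =>
          ∑ n ∈ Finset.Icc 1 N, ((ArithmeticFunction.moebius n : ℤ) : ℂ) / (n : ℂ) * f (T^[n] x))
          atTop (𝓝 l)) → (∀ f : X → ℂ, Continuous f → ∀ x : X, Tendsto (fun N : ℕ =>
          (∑ n ∈ Finset.Icc 1 N, ((ArithmeticFunction.moebius n : ℤ) : ℂ) * f (T^[n] x)) / (N : ℂ))
          atTop (𝓝 0)) := by
      intro hL f hf x
      obtain ⟨l, hl⟩ := hL f hf x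
      refine kronecker (fun n => ((ArithmeticFunction.moebius n : ℤ) : ℂ) * f (T^[n] x)) l ?_
      refine hl.congr fun N => Finset.sum_congr rfl fun n _ => by ring
    rw [← h1]
    constructor
    · intro hiff
      by_cases hS : (∀ f : X → ℂ, Continuous f → ∀ x : X, Tendsto (fun N : ℕ =>
          (∑ n ∈ Finset.Icc 1 N, ((ArithmeticFunction.moebius n : ℤ) : ℂ) * f (T^[n] x)) / (N : ℂ))
          atTop (𝓝 0))
      · exact Or.inr (hiff.1 hS)
      · exact Or.inl hS
    · rintro (hS | hL)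
      · exact ⟨fun h => absurd h hS, fun h => absurd (hLS h) hS⟩
      · exact ⟨fun _ => hL, fun h => hLS h⟩
  · -- (3)
    intro x hx h hh
    exact gen _ (fun n => T^[n] x) (Generic.injective_of_infinite T x hx) sum_atTop h
      (hh.trans_isBigO Orb.log_isBigO)
  · -- (4)
    intro hD h hh
    have h2 : (fun N => |h N| + 1) =o[atTop] fun N : ℕ => ∑ n ∈ Finset.Icc 1 N,
        ‖((ArithmeticFunction.moebius n : ℤ) : ℂ) / (n : ℂ)‖ := by
      refine Asymptotics.IsLittleO.add (hh.trans_isBigO Orb.log_isBigO).abs_left ?_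
      rw [Asymptotics.isLittleO_const_left]
      right
      exact tendsto_norm_atTop_atTop.comp sum_atTop
    filter_upwards [Generic.generic_generic T hT _ _ hD
      (fun y hy => Generic.injective_of_infinite T y hy) (fun N => |h N| + 1) h2
      (fun N => by positivity)] with f hf
    filter_upwards [hf] with x hx K
    refine (hx |K|).mono fun N hN => lt_of_le_of_lt ?_ hN
    calc K * h N ≤ |K * h N| := le_abs_self _
      _ = |K| * |h N| := abs_mul _ _
      _ ≤ |K| * (|h N| + 1) := mul_le_mul_of_nonneg_left (by linarith) (abs_nonneg _)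
  · -- (5)
    intro f x hS
    have h2 := Orb.little_of_mean
      (fun n => ((ArithmeticFunction.moebius n : ℤ) : ℂ) * f (T^[n] x)) hS
    refine h2.congr_left fun N => Finset.sum_congr rfl fun n _ => by ring
  · -- (6)
    intro x hx hS
    refine Osc.osc (fun n : ℕ => ((ArithmeticFunction.moebius n : ℤ) : ℂ) / (n : ℂ))
      (fun n => T^[n] x) (Generic.injective_of_infinite T x hx) sum_atTop fun f => ?_
    have h2 := Orb.little_of_mean
      (fun n => ((ArithmeticFunction.moebius n : ℤ) : ℂ) * f (T^[n] x)) (hS f f.continuous)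
    refine (h2.trans_isBigO Orb.log_isBigO).congr_left fun N => ?_
    unfold Generic.S
    exact Finset.sum_congr rfl fun n _ => by ring
  · -- (7)
    intro x hx w
    constructor
    · intro hconv
      exact h7 x hx (fun n => ((ArithmeticFunction.moebius n : ℤ) : ℂ) * w n) (by simp) hconv
    · intro hs f hf
      obtain ⟨C, hC⟩ : ∃ C, ∀ y, ‖f y‖ ≤ C := by
        obtain ⟨C, hC⟩ := (isCompact_range hf).isBounded.exists_norm_le
        exact ⟨C, fun y => hC _ ⟨y, rfl⟩⟩
      have hs2 : Summable fun n : ℕ =>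
          ((ArithmeticFunction.moebius n : ℤ) : ℂ) * w n * f (T^[n] x) := by
        refine Summable.of_norm_bounded (hs.mul_right C) fun n => ?_
        rw [norm_mul]
        exact mul_le_mul_of_nonneg_left (hC _) (norm_nonneg _)
      refine ⟨∑' n : ℕ, ((ArithmeticFunction.moebius n : ℤ) : ℂ) * w n * f (T^[n] x), ?_⟩
      have h2 := hs2.hasSum.tendsto_sum_nat.comp (tendsto_add_atTop_nat 1)
      refine h2.congr fun N => ?_
      simp only [Function.comp]
      rw [Finset.sum_range_succ', Finset.range_eq_Ico,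
        Finset.sum_Ico_add' (fun n : ℕ =>
          ((ArithmeticFunction.moebius n : ℤ) : ℂ) * w n * f (T^[n] x)) 0 N 1]
      rw [show ((ArithmeticFunction.moebius 0 : ℤ) : ℂ) * w 0 * f (T^[0] x) = 0 by simp, add_zero]
      refine Finset.sum_congr ?_ fun n _ => rfl
      ext n
      simp only [Finset.mem_Icc, Finset.mem_Ico]
      omega

end Pool.Agent.Results.MP_aae597_nt.EverySystem
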