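import Mathlib
import Pool.Agent.Lib.MP_aae597_nt.SparsePrimes
import Pool.Agent.Lib.MP_aae597_nt.Shift
import Pool.Agent.Lib.MP_aae597_nt.Cesaro

set_option autoImplicit false

namespace Pool.Agent.Results.MP_aae597_nt.LandauFails

open Filter Topology Set
open Pool.Agent.Lib.MP_aae597_nt

/-- The Landau-type statement (L) is false: there are a countable compact metric space `X`, a
homeomorphism `T` of `X` with topological entropy zero, a continuous function `f` on `X` with
values `0` and `1` and a point `x` such that the partial sums of `∑ μ(n)/n * f (T^n x)` tend to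
infinity in absolute value. Moreover `T` has a fixed point `x₀` such that for every continuous `F`
and every point `y` the values `F (T^n y)` converge in mean to `F x₀` (so that, by
`∑_{n ≤ N} μ(n) = o(N)`, the same system satisfies Moebius disjointness). -/
theorem result :
    ∃ (X : Type) (_ : MetricSpace X) (_ : CompactSpace X) (T : X ≃ₜ X) (f : X → ℂ) (x x₀ : X),
      Countable X ∧
      Dynamics.coverEntropy (T : X → X) Set.univ = 0 ∧
      Continuous f ∧
      (∀ y, f y = 0 ∨ f y = 1) ∧
      T x₀ = x₀ ∧
      (∀ F : X → ℂ, Continuous F → ∀ y : X,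
        Tendsto (fun N : ℕ => (∑ n ∈ Finset.Icc 1 N, ‖F ((T : X → X)^[n] y) - F x₀‖) / N)
          atTop (𝓝 0)) ∧
      Tendsto (fun N : ℕ =>
        ‖∑ n ∈ Finset.Icc 1 N,
          ((ArithmeticFunction.moebius n : ℤ) : ℂ) / (n : ℂ) * f ((T : X → X)^[n] x)‖)
        atTop atTop := by
  classical
  obtain ⟨E, hEp, hEgap, hEdiv⟩ := exists_sparse_primes
  let a : ℤ → Bool := fun i => decide (∃ p ∈ E, (p : ℤ) = i)
  have ha : ∀ i, a i = true ↔ ∃ p ∈ E, (p : ℤ) = i := fun i => by simp [a]
  have hpos : ∀ i, a i = true → 1 ≤ i := by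
    intro i hi
    obtain ⟨p, hp, rfl⟩ := (ha i).1 hi
    exact_mod_cast (hEp p hp).one_lt.le
  have hgap : ∀ L : ℕ, ∃ M : ℤ, ∀ i j, a i = true → a j = true → M ≤ i → i < j → i + L ≤ j := by
    intro L
    obtain ⟨M, hM⟩ := hEgap L
    refine ⟨M, ?_⟩
    intro i j hi hj hMi hij
    obtain ⟨p, hp, rfl⟩ := (ha i).1 hi
    obtain ⟨q, hq, rfl⟩ := (ha j).1 hj
    exact_mod_cast hM p hp q hq (by exact_mod_cast hMi) (by exact_mod_cast hij)
  let K : Set (ℤ → Bool) := closure (orb a)
  have hK : K = sh ⁻¹' K := sh_preimage_closure a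
  have hmaps : MapsTo sh K K := fun x hx => by
    have : x ∈ sh ⁻¹' K := hK ▸ hx
    exact this
  let T : K ≃ₜ K := sh.sets hK
  have hTval : ∀ y : K, ((T y : K) : ℤ → Bool) = sh (y : ℤ → Bool) := fun y => rfl
  have hTit : ∀ (n : ℕ) (y : K), (((T : K → K)^[n] y : K) : ℤ → Bool) = sh^[n] (y : ℤ → Bool) := by
    intro n
    induction n with
    | zero => intro y; rfl
    | succ n ih => intro y; rw [Function.iterate_succ_apply, Function.iterate_succ_apply, ih, hTval]
  let f : K → ℂ := fun y => if (y : ℤ → Bool) 0 = true then 1 else 0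
  have hf : Continuous f := by
    have h1 : Continuous (fun y : K => (y : ℤ → Bool) 0) :=
      (continuous_apply (0:ℤ)).comp continuous_subtype_val
    have h2 : Continuous (fun b : Bool => (if b = true then (1:ℂ) else 0)) :=
      continuous_of_discreteTopology
    exact h2.comp h1
  have hx0 : a ∈ K := subset_closure ⟨0, by funext i; simp [tr]⟩
  let x : K := ⟨a, hx0⟩
  have hsub : K ⊆ orb a ∪ insert zero (Set.range single) := closure_orb_subset a hpos hgap
  have hsp : ∀ y : K, Sparse (y : ℤ → Bool) := by
    intro y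
    rcases hsub y.2 with ⟨m, hm⟩ | h
    · rw [← hm]; exact sparse_tr hgap m
    · rcases h with h | ⟨m, hm⟩
      · rw [h]; exact sparse_zero
      · rw [← hm]; exact sparse_single m
  have hz0 : zero ∈ K := by
    show zero ∈ closure (orb a)
    rw [mem_closure_iff_nhds]
    intro U hU
    rw [UniformSpace.mem_nhds_iff] at hU
    obtain ⟨V', hV', hVU⟩ := hU
    obtain ⟨k, hk⟩ := exists_V_subset V' hV'
    refine ⟨tr a (-(k:ℤ)), hVU (hk ?_), ⟨_, rfl⟩⟩
    rw [mem_V]
    intro i hi
    show false = a (i + -(k:ℤ))
    by_contra hne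
    have hne' : a (i + -(k:ℤ)) = true := by
      cases h : a (i + -(k:ℤ))
      · exact absurd h.symm hne
      · rfl
    have h1 := hpos _ hne'
    have h2 := (abs_le.1 hi).2
    omega
  have hcomp : CompactSpace K := isCompact_iff_compactSpace.1 isClosed_closure.isCompact
  have hent : Dynamics.coverEntropy (T : K → K) Set.univ = 0 := by
    have hTr : (T : K → K) = hmaps.restrict sh K K := by
      funext y; rfl
    rw [hTr, Dynamics.coverEntropy_restrict hmaps, Dynamics.coverEntropy_closure sh.continuous]
    apply le_antisymm (entropy_orb a hpos hgap)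
    exact Dynamics.coverEntropy_nonneg _ ⟨tr a 0, 0, rfl⟩
  have hcg0 : (uniformity Bool).IsCountablyGenerated := Filter.isCountablyGenerated_principal _
  have hcg1 : (uniformity (ℤ → Bool)).IsCountablyGenerated := inferInstance
  have hcg : (uniformity K).IsCountablyGenerated := by
    rw [uniformity_subtype]
    infer_instance
  let _ : MetricSpace K := UniformSpace.metricSpace K
  refine ⟨K, inferInstance, hcomp, T, f, x, ⟨zero, hz0⟩, ?_, hent, hf, ?_, ?_, ?_, ?_⟩
  · exact (closure_orb_countable a hpos hgap).to_subtype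
  · intro y
    by_cases h : (y : ℤ → Bool) 0 = true
    · right; simp [f, h]
    · left; simp [f, h]
  · apply Subtype.ext
    rw [hTval]
    funext i
    rfl
  · intro F hF y
    exact cesaro isClosed_closure.isCompact hz0 (T : K → K) hTit F hF y (hsp y)
  · have hterm : ∀ n : ℕ, ((ArithmeticFunction.moebius n : ℤ) : ℂ) / (n : ℂ)
        * f ((T : K → K)^[n] x) = -((Set.indicator E (fun n : ℕ => (1:ℝ)/n) n : ℝ) : ℂ) := by
      intro n
      have h1 : f ((T : K → K)^[n] x) = if a n = true then 1 else 0 := by
        simp only [f, hTit]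
        rw [sh_iterate]
        simp [x]
      rw [h1]
      by_cases hn : n ∈ E
      · have h2 : a n = true := (ha n).2 ⟨n, hn, rfl⟩
        rw [if_pos h2, Set.indicator_of_mem hn,
          ArithmeticFunction.moebius_apply_prime (hEp n hn)]
        push_cast
        ring
      · have h2 : ¬ a n = true := by
          rw [ha n]
          rintro ⟨p, hp, hpn⟩
          have : p = n := by exact_mod_cast hpn
          exact hn (this ▸ hp)
        rw [if_neg h2, Set.indicator_of_notMem hn]
        simp
    have hsum : ∀ N : ℕ, ‖∑ n ∈ Finset.Icc 1 N,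
          ((ArithmeticFunction.moebius n : ℤ) : ℂ) / (n : ℂ) * f ((T : K → K)^[n] x)‖
          = ∑ n ∈ Finset.Icc 1 N, Set.indicator E (fun n : ℕ => (1:ℝ)/n) n := by
      intro N
      rw [Finset.sum_congr rfl (fun n _ => hterm n), Finset.sum_neg_distrib, norm_neg,
        ← Complex.ofReal_sum, Complex.norm_real, Real.norm_of_nonneg]
      exact Finset.sum_nonneg (fun n _ => Set.indicator_nonneg (fun _ _ => by positivity) n)
    simp only [hsum]
    exact hEdiv

end Pool.Agent.Results.MP_aae597_nt.LandauFails
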